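import Mathlib

/-!
# A nearfield design that is not a Galois field design

For the Dickson nearfield `N` of order `343 = 7 ^ 3` and a subgroup `G` of order `9` of its
multiplicative group the design `D(N, Φ, G)` has two blocks with exactly three common points,
whereas any two blocks of the design `D(343, 9)` of the Galois field have at most two common
points.
-/

set_option autoImplicit false

namespace Pool.Agent.Results.MP_fd05bb_co.OrderThreeFortyThree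

/-- A nearfield: `(N, +)` is an abelian group, `(N ∖ {0}, ·)` is a group, `0 · x = x · 0 = 0`,
and `(x + y) z = x z + y z`. -/
class Nearfield (N : Type) extends AddCommGroup N, GroupWithZero N where
  /-- the right distributive law -/
  right_distrib' : ∀ x y z : N, (x + y) * z = x * z + y * z

/-- The block set of `D(N, Φ, G)`, where `Φ` is the group of the maps `x ↦ x s + a` with `s ∈ S`,
`a ∈ N`: the images of `G` under the elements of `Φ`. -/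
def blocks {N : Type} [Add N] [Monoid N] (S G : Subgroup Nˣ) : Set (Set N) :=
  {B | ∃ s ∈ S, ∃ a : N, B = {y | ∃ g ∈ G, y = (g : N) * (s : N) + a}}

/-- The designs with the point sets `N`, `F` and the block sets `P`, `Q` are isomorphic. -/
def Iso {N F : Type} (P : Set (Set N)) (Q : Set (Set F)) : Prop :=
  ∃ e : N ≃ F, (fun B : Set N => (e : N → F) '' B) '' P = Q

/-! ### The field of order `343` -/

/-- The elements `a + b θ + c θ²` of the field `F_7(θ)`, `θ³ = 2`. -/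
@[ext] structure T where
  /-- the coefficient of `1` -/
  a : ZMod 7
  /-- the coefficient of `θ` -/
  b : ZMod 7
  /-- the coefficient of `θ²` -/
  c : ZMod 7
deriving DecidableEq, Fintype

namespace T

/-- addition -/
def add (x y : T) : T := ⟨x.a + y.a, x.b + y.b, x.c + y.c⟩
/-- negation -/
def neg (x : T) : T := ⟨-x.a, -x.b, -x.c⟩
/-- multiplication of the field -/
def mul (x y : T) : T :=
  ⟨x.a * y.a + 2 * (x.b * y.c + x.c * y.b), x.a * y.b + x.b * y.a + 2 * (x.c * y.c),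
    x.a * y.c + x.b * y.b + x.c * y.a⟩
/-- the norm -/
def nrm (x : T) : ZMod 7 := x.a ^ 3 + 2 * x.b ^ 3 + 4 * x.c ^ 3 - 6 * (x.a * x.b * x.c)
/-- the inverse in the field -/
def inv (x : T) : T :=
  ⟨(x.a ^ 2 - 2 * (x.b * x.c)) * nrm x ^ 5, (2 * x.c ^ 2 - x.a * x.b) * nrm x ^ 5,
    (x.b ^ 2 - x.a * x.c) * nrm x ^ 5⟩
/-- the map `θ ↦ e θ`, an automorphism for `e³ = 1` -/
def phi (e : ZMod 7) (x : T) : T := ⟨x.a, e * x.b, e ^ 2 * x.c⟩

theorem nrm_mul (x y : T) : nrm (mul x y) = nrm x * nrm y := by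
  simp only [nrm, mul]; ring

theorem nrm_phi (e : ZMod 7) (he : e ^ 3 = 1) (x : T) : nrm (phi e x) = nrm x := by
  simp only [nrm, phi]
  linear_combination (2 * x.b ^ 3 + 4 * x.c ^ 3 * (e ^ 3 + 1) - 6 * (x.a * x.b * x.c)) * he

theorem phi_mul (e : ZMod 7) (he : e ^ 3 = 1) (x y : T) :
    phi e (mul x y) = mul (phi e x) (phi e y) := by
  ext
  · simp only [phi, mul]
    linear_combination (-2 * (x.b * y.c + x.c * y.b)) * he
  · simp only [phi, mul]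
    linear_combination (-2 * e * (x.c * y.c)) * he
  · simp only [phi, mul]
    ring

theorem phi_phi (e f : ZMod 7) (x : T) : phi e (phi f x) = phi (e * f) x := by
  ext <;> simp only [phi] <;> ring

theorem phi_one (x : T) : phi 1 x = x := by
  ext <;> simp [phi]

theorem phi_unit (e : ZMod 7) : phi e ⟨1, 0, 0⟩ = ⟨1, 0, 0⟩ := by
  ext <;> simp [phi]

theorem phi_add (e : ZMod 7) (x y : T) : phi e (add x y) = add (phi e x) (phi e y) := by
  ext <;> simp only [phi, add] <;> ring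

theorem mul_assoc' (x y z : T) : mul (mul x y) z = mul x (mul y z) := by
  ext <;> simp only [mul] <;> ring

theorem mul_comm' (x y : T) : mul x y = mul y x := by
  ext <;> simp only [mul] <;> ring

theorem add_mul' (x y z : T) : mul (add x y) z = add (mul x z) (mul y z) := by
  ext <;> simp only [mul, add] <;> ring

theorem nrm_ne : ∀ a b c : ZMod 7, nrm ⟨a, b, c⟩ = 0 → a = 0 ∧ b = 0 ∧ c = 0 := by
  decide +kernel

theorem nrm_eq_zero {x : T} (h : nrm x = 0) : x = ⟨0, 0, 0⟩ := by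
  obtain ⟨h1, h2, h3⟩ := nrm_ne x.a x.b x.c h
  ext <;> assumption

theorem pow_six : ∀ n : ZMod 7, n ≠ 0 → n ^ 6 = 1 := by decide

theorem mul_inv' (x : T) (hx : x ≠ ⟨0, 0, 0⟩) : mul x (inv x) = ⟨1, 0, 0⟩ := by
  have hn : nrm x ^ 6 = 1 := pow_six _ fun h => hx (nrm_eq_zero h)
  have hn' : nrm x * nrm x ^ 5 = 1 := by rw [← hn]; ring
  ext
  · rw [← hn']
    simp only [mul, inv]
    rw [show nrm x * nrm x ^ 5 =
      (x.a ^ 3 + 2 * x.b ^ 3 + 4 * x.c ^ 3 - 6 * (x.a * x.b * x.c)) * nrm x ^ 5 from rfl]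
    ring
  · simp only [mul, inv]; ring
  · simp only [mul, inv]; ring

instance : Zero T := ⟨⟨0, 0, 0⟩⟩
instance : One T := ⟨⟨1, 0, 0⟩⟩
instance : Add T := ⟨add⟩
instance : Neg T := ⟨neg⟩
instance : Mul T := ⟨mul⟩

instance : CommRing T where
  nsmul := nsmulRec
  zsmul := zsmulRec
  add_assoc x y z := by
    show add (add x y) z = add x (add y z)
    ext <;> simp only [add] <;> ring
  zero_add x := by
    show add ⟨0, 0, 0⟩ x = x
    ext <;> simp [add]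
  add_zero x := by
    show add x ⟨0, 0, 0⟩ = x
    ext <;> simp [add]
  add_comm x y := by
    show add x y = add y x
    ext <;> simp only [add] <;> ring
  neg_add_cancel x := by
    show add (neg x) x = ⟨0, 0, 0⟩
    ext <;> simp [add, neg]
  left_distrib x y z := by
    show mul x (add y z) = add (mul x y) (mul x z)
    ext <;> simp only [mul, add] <;> ring
  right_distrib x y z := add_mul' x y z
  zero_mul x := by
    show mul ⟨0, 0, 0⟩ x = ⟨0, 0, 0⟩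
    ext <;> simp [mul]
  mul_zero x := by
    show mul x ⟨0, 0, 0⟩ = ⟨0, 0, 0⟩
    ext <;> simp [mul]
  mul_assoc := mul_assoc'
  one_mul x := by
    show mul ⟨1, 0, 0⟩ x = x
    ext <;> simp [mul]
  mul_one x := by
    show mul x ⟨1, 0, 0⟩ = x
    ext <;> simp [mul]
  mul_comm := mul_comm'

instance : Field T where
  inv := inv
  exists_pair_ne := ⟨⟨0, 0, 0⟩, ⟨1, 0, 0⟩, by decide⟩
  mul_inv_cancel := mul_inv'
  inv_zero := by
    show inv ⟨0, 0, 0⟩ = ⟨0, 0, 0⟩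
    ext <;> simp [inv]
  nnqsmul := _
  nnqsmul_def := fun _ _ => rfl
  qsmul := _
  qsmul_def := fun _ _ => rfl

theorem card_T : Fintype.card T = 343 := by
  have e : T ≃ ZMod 7 × ZMod 7 × ZMod 7 :=
    ⟨fun x => (x.a, x.b, x.c), fun p => ⟨p.1, p.2.1, p.2.2⟩, fun _ => rfl, fun _ => rfl⟩
  rw [Fintype.card_congr e]
  simp [ZMod.card]

end T

/-! ### The Dickson nearfield of order `343` -/

/-- the point set of the nearfield -/
def NT : Type := T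

/-- the identity map of the point set -/
def toN (x : T) : NT := x

instance : DecidableEq NT := inferInstanceAs (DecidableEq T)
instance : Fintype NT := inferInstanceAs (Fintype T)

/-- the multiplication of the nearfield -/
def nmul (x y : T) : T := T.mul (T.phi (T.nrm y ^ 2) x) y
/-- the inverse in the nearfield -/
def ninv (x : T) : T := T.phi (T.nrm x ^ 4) (T.inv x)

theorem nrm_zero : T.nrm ⟨0, 0, 0⟩ = 0 := by decide
theorem nrm_one : T.nrm ⟨1, 0, 0⟩ = 1 := by decide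

theorem nmul_zero (x : T) : nmul x ⟨0, 0, 0⟩ = ⟨0, 0, 0⟩ := by
  ext <;> simp [nmul, T.mul]

theorem zero_nmul (x : T) : nmul ⟨0, 0, 0⟩ x = ⟨0, 0, 0⟩ := by
  ext <;> simp [nmul, T.mul, T.phi]

theorem sq_cube (n : ZMod 7) (h : n ≠ 0) : (n ^ 2) ^ 3 = 1 := by
  rw [← pow_mul]; exact T.pow_six n h

theorem nrm_nmul (x y : T) : T.nrm (nmul x y) = T.nrm x * T.nrm y := by
  by_cases hy : T.nrm y = 0
  · rw [T.nrm_eq_zero hy, nmul_zero, nrm_zero, mul_zero]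
  · rw [nmul, T.nrm_mul, T.nrm_phi _ (sq_cube _ hy)]

theorem nmul_assoc (x y z : T) : nmul (nmul x y) z = nmul x (nmul y z) := by
  by_cases hz : T.nrm z = 0
  · rw [T.nrm_eq_zero hz, nmul_zero, nmul_zero, nmul_zero]
  · have h3 := sq_cube _ hz
    have e1 : nmul (nmul x y) z
        = T.mul (T.mul (T.phi (T.nrm z ^ 2) (T.phi (T.nrm y ^ 2) x)) (T.phi (T.nrm z ^ 2) y)) z := by
      rw [nmul, nmul, T.phi_mul _ h3]
    have e2 : nmul x (nmul y z)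
        = T.mul (T.phi ((T.nrm y * T.nrm z) ^ 2) x) (T.mul (T.phi (T.nrm z ^ 2) y) z) := by
      rw [nmul, nrm_nmul]; rfl
    rw [e1, e2, T.phi_phi, T.mul_assoc', mul_pow, mul_comm (T.nrm z ^ 2)]

theorem one_nmul (x : T) : nmul ⟨1, 0, 0⟩ x = x := by
  rw [nmul, T.phi_unit]
  exact one_mul (M := T) x

theorem nmul_one (x : T) : nmul x ⟨1, 0, 0⟩ = x := by
  rw [nmul, nrm_one, one_pow, T.phi_one]
  exact mul_one (M := T) x

theorem nmul_ninv (x : T) (hx : x ≠ ⟨0, 0, 0⟩) : nmul x (ninv x) = ⟨1, 0, 0⟩ := by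
  have hn : T.nrm x ≠ 0 := fun h => hx (T.nrm_eq_zero h)
  have h6 := T.pow_six _ hn
  have h4 : (T.nrm x ^ 4) ^ 3 = 1 := by
    rw [← pow_mul, show 4 * 3 = 6 * 2 by norm_num, pow_mul, h6, one_pow]
  have hi := T.mul_inv' x hx
  have hN : T.nrm x * T.nrm (T.inv x) = 1 := by
    rw [← T.nrm_mul, hi, nrm_one]
  have hN' : T.nrm (ninv x) ^ 2 = T.nrm x ^ 4 := by
    rw [ninv, T.nrm_phi _ h4]
    have : T.nrm (T.inv x) ^ 2 = T.nrm x ^ 4 * (T.nrm x * T.nrm (T.inv x)) ^ 2 := by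
      linear_combination (-T.nrm (T.inv x) ^ 2) * h6
    rw [this, hN]; ring
  rw [nmul, hN', ninv, ← T.phi_mul _ h4, hi, T.phi_unit]

theorem add_nmul (x y z : T) : nmul (T.add x y) z = T.add (nmul x z) (nmul y z) := by
  rw [nmul, T.phi_add, T.add_mul']; rfl

instance : AddCommGroup NT := inferInstanceAs (AddCommGroup T)

instance : GroupWithZero NT where
  mul := nmul
  one := (⟨1, 0, 0⟩ : T)
  inv := ninv
  mul_assoc := nmul_assoc
  one_mul := one_nmul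
  mul_one := nmul_one
  zero_mul := zero_nmul
  mul_zero := nmul_zero
  exists_pair_ne := ⟨(⟨0, 0, 0⟩ : T), (⟨1, 0, 0⟩ : T), by
    show (⟨0, 0, 0⟩ : T) ≠ ⟨1, 0, 0⟩
    decide⟩
  inv_zero := by
    show ninv ⟨0, 0, 0⟩ = ⟨0, 0, 0⟩
    ext <;> simp [ninv, T.phi, T.inv]
  mul_inv_cancel := nmul_ninv

instance : Nearfield NT where
  right_distrib' := add_nmul

theorem card_NT : Fintype.card NT = 343 := T.card_T

/-! ### Subgroups given by a set of elements -/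

/-- the subgroup of the units whose values have the property `P` -/
def mkSub (P : NT → Prop) (h1 : P (1 : NT)) (hm : ∀ x y : NT, P x → P y → P (x * y))
    (hi : ∀ x : NT, P x → P x⁻¹) : Subgroup NTˣ where
  carrier := {u | P (u : NT)}
  one_mem' := by simpa using h1
  mul_mem' := fun {a b} ha hb => by
    show P ((a * b : NTˣ) : NT)
    rw [Units.val_mul]; exact hm _ _ ha hb
  inv_mem' := fun {a} ha => by
    show P ((a⁻¹ : NTˣ) : NT)
    rw [Units.val_inv_eq_inv_val]; exact hi _ ha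

theorem card_mkSub (P : NT → Prop) [DecidablePred P] (h1 : P (1 : NT))
    (hm : ∀ x y : NT, P x → P y → P (x * y)) (hi : ∀ x : NT, P x → P x⁻¹) (h0 : ¬ P (0 : NT)) :
    Nat.card (mkSub P h1 hm hi) = Fintype.card {x : NT // P x} := by
  rw [← Nat.card_eq_fintype_card]
  refine Nat.card_congr ⟨fun u => ⟨(u.1 : NT), u.2⟩,
    fun x => ⟨Units.mk0 x.1 (fun h => h0 (h ▸ x.2)), x.2⟩, fun u => ?_, fun x => rfl⟩
  apply Subtype.ext
  apply Units.ext
  rfl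

/-- the elements of the subgroup `G` of order `9` -/
def lst : List T := [⟨1, 0, 0⟩, ⟨2, 0, 0⟩, ⟨4, 0, 0⟩, ⟨0, 3, 2⟩, ⟨0, 6, 4⟩, ⟨0, 5, 1⟩,
  ⟨1, 1, 4⟩, ⟨2, 2, 1⟩, ⟨4, 4, 2⟩]

theorem lst_mul : ∀ x ∈ lst, ∀ y ∈ lst, nmul x y ∈ lst := by decide +kernel

theorem lst_inv : ∀ x ∈ lst, ninv x ∈ lst := by decide +kernel

/-- the subgroup `G` of order `9` -/
def G : Subgroup NTˣ :=
  mkSub (fun x => (x : T) ∈ lst) (by show (⟨1, 0, 0⟩ : T) ∈ lst; decide)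
    (fun x y hx hy => lst_mul x hx y hy) (fun x hx => lst_inv x hx)

instance : DecidablePred (fun x : NT => (x : T) ∈ lst) :=
  fun x => @List.instDecidableMemOfLawfulBEq T _ _ x lst

theorem card_G : Nat.card G = 9 := by
  refine (card_mkSub (fun x => (x : T) ∈ lst) (by show (⟨1, 0, 0⟩ : T) ∈ lst; decide)
    (fun x y hx hy => lst_mul x hx y hy) (fun x hx => lst_inv x hx)
    (by show ¬ (⟨0, 0, 0⟩ : T) ∈ lst; decide)).trans ?_
  decide +kernel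

theorem S_mul (x y : T) (hx : T.nrm x ^ 3 = 1) (hy : T.nrm y ^ 3 = 1) :
    T.nrm (nmul x y) ^ 3 = 1 := by
  rw [nrm_nmul, mul_pow, hx, hy, one_mul]

theorem S_inv (x : T) (hx : T.nrm x ^ 3 = 1) : T.nrm (ninv x) ^ 3 = 1 := by
  have h0 : x ≠ ⟨0, 0, 0⟩ := by
    rintro rfl; revert hx; decide
  have := congrArg T.nrm (nmul_ninv x h0)
  rw [nrm_nmul, nrm_one] at this
  have h3 : (T.nrm x * T.nrm (ninv x)) ^ 3 = 1 := by rw [this, one_pow]
  rwa [mul_pow, hx, one_mul] at h3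

/-- the subgroup `S` of order `171` -/
def S : Subgroup NTˣ :=
  mkSub (fun x => T.nrm x ^ 3 = 1) (by show T.nrm ⟨1, 0, 0⟩ ^ 3 = 1; decide)
    (fun x y hx hy => S_mul x y hx hy) (fun x hx => S_inv x hx)

theorem card_S : Nat.card S = 171 := by
  have e := card_mkSub (fun x => T.nrm x ^ 3 = 1) (by show T.nrm ⟨1, 0, 0⟩ ^ 3 = 1; decide)
    (fun x y hx hy => S_mul x y hx hy) (fun x hx => S_inv x hx)
    (by show ¬ T.nrm ⟨0, 0, 0⟩ ^ 3 = 1; decide)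
  refine Eq.trans e ?_
  have : Fintype.card {x : T // T.nrm x ^ 3 = 1} = 171 := by decide +kernel
  rw [← this]
  exact Fintype.card_congr (Equiv.refl _)

theorem G_le_S : G ≤ S := by
  intro u hu
  have h : ∀ x ∈ lst, T.nrm x ^ 3 = 1 := by decide +kernel
  exact h _ hu

/-! ### The three common points of two blocks of the nearfield design -/

theorem mem_block {s : T} (hs : s ≠ ⟨0, 0, 0⟩) (a y g : T) (hg : g ∈ lst)
    (h : T.add (nmul g s) a = y) :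
    toN y ∈ {y : NT | ∃ g ∈ G, y = (g : NT) * ((Units.mk0 (toN s) hs : NTˣ) : NT) + toN a} := by
  have h0 : toN g ≠ 0 := by
    intro h0
    have h1 : g = ⟨0, 0, 0⟩ := h0
    revert hg
    rw [h1]; decide
  exact ⟨Units.mk0 (toN g) h0, hg, h.symm⟩

theorem toN_ne {x y : T} (h : x ≠ y) : toN x ≠ toN y := h

theorem three_common : ∃ B₁ ∈ blocks S G, ∃ B₂ ∈ blocks S G, B₁ ≠ B₂ ∧
    ∃ p q r : NT, p ≠ q ∧ p ≠ r ∧ q ≠ r ∧ p ∈ B₁ ∧ q ∈ B₁ ∧ r ∈ B₁ ∧ p ∈ B₂ ∧ q ∈ B₂ ∧ r ∈ B₂ := by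
  have hs1 : (⟨1, 0, 0⟩ : T) ≠ ⟨0, 0, 0⟩ := by decide
  have hs2 : (⟨0, 3, 1⟩ : T) ≠ ⟨0, 0, 0⟩ := by decide
  refine ⟨{y : NT | ∃ g ∈ G, y = (g : NT) *
      ((Units.mk0 (toN ⟨1, 0, 0⟩) hs1 : NTˣ) : NT) + toN ⟨0, 0, 0⟩},
    ⟨_, ?_, _, rfl⟩,
    {y : NT | ∃ g ∈ G, y = (g : NT) *
      ((Units.mk0 (toN ⟨0, 3, 1⟩) hs2 : NTˣ) : NT) + toN ⟨1, 2, 1⟩},
    ⟨_, ?_, _, rfl⟩, ?_, toN ⟨0, 3, 2⟩, toN ⟨1, 0, 0⟩, toN ⟨1, 1, 4⟩,
    toN_ne (by decide), toN_ne (by decide), toN_ne (by decide),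
    mem_block hs1 _ _ ⟨0, 3, 2⟩ (by decide) (by decide),
    mem_block hs1 _ _ ⟨1, 0, 0⟩ (by decide) (by decide),
    mem_block hs1 _ _ ⟨1, 1, 4⟩ (by decide) (by decide),
    mem_block hs2 _ _ ⟨0, 3, 2⟩ (by decide) (by decide),
    mem_block hs2 _ _ ⟨1, 1, 4⟩ (by decide) (by decide),
    mem_block hs2 _ _ ⟨4, 4, 2⟩ (by decide) (by decide)⟩
  · show T.nrm ⟨1, 0, 0⟩ ^ 3 = 1
    decide
  · show T.nrm ⟨0, 3, 1⟩ ^ 3 = 1
    decide
  · intro h
    have h1 : toN ⟨1, 5, 2⟩ ∈ {y : NT | ∃ g ∈ G, y = (g : NT) *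
      ((Units.mk0 (toN ⟨0, 3, 1⟩) hs2 : NTˣ) : NT) + toN ⟨1, 2, 1⟩} :=
      mem_block hs2 _ _ ⟨1, 0, 0⟩ (by decide) (by decide)
    rw [← h] at h1
    obtain ⟨g, hg, hy⟩ := h1
    have : ∀ g ∈ lst, (⟨1, 5, 2⟩ : T) ≠ T.add (nmul g ⟨1, 0, 0⟩) ⟨0, 0, 0⟩ := by decide +kernel
    exact this _ hg hy

/-! ### Blocks of the design of the Galois field -/

/-- the ninth roots of unity of `T` -/
def roots : List T := [⟨1, 0, 0⟩, ⟨2, 0, 0⟩, ⟨4, 0, 0⟩, ⟨0, 1, 0⟩, ⟨0, 2, 0⟩, ⟨0, 4, 0⟩,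
  ⟨0, 0, 1⟩, ⟨0, 0, 2⟩, ⟨0, 0, 4⟩]

theorem mem_roots : ∀ x : T, (x * x * x) * (x * x * x) * (x * x * x) = 1 → x ∈ roots := by
  decide +kernel

/-- a numbering of the elements of `T` -/
def code (x : T) : ℕ := x.a.val * 49 + x.b.val * 7 + x.c.val

/-- the pairs of different roots different from `1` -/
def pairs : List (T × T) :=
  (roots.product roots).filter (fun p => p.1 ≠ ⟨1, 0, 0⟩ ∧ p.2 ≠ ⟨1, 0, 0⟩ ∧ p.1 ≠ p.2)

/-- the number of `(x - 1) / (y - 1)` -/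
def key (p : T × T) : ℕ :=
  code (T.mul (T.add p.1 ⟨6, 0, 0⟩) (T.inv (T.add p.2 ⟨6, 0, 0⟩)))

theorem key_nodup : (pairs.map key).Nodup := by
  decide +kernel

theorem sub_one_eq (x : T) : x - 1 = T.add x ⟨6, 0, 0⟩ := by
  rw [sub_eq_add_neg]
  show T.add x (T.neg ⟨1, 0, 0⟩) = _
  congr 1

theorem ratio (x₁ x₂ y₁ y₂ : T) (h1 : x₁ ∈ roots) (h2 : x₂ ∈ roots) (h3 : y₁ ∈ roots)
    (h4 : y₂ ∈ roots) (n1 : x₁ ≠ 1) (n2 : x₂ ≠ 1) (n3 : y₁ ≠ 1) (n4 : y₂ ≠ 1) (n : x₁ ≠ x₂)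
    (m : y₁ ≠ y₂) (h : (x₁ - 1) * (y₂ - 1) = (y₁ - 1) * (x₂ - 1)) : x₁ = y₁ ∧ x₂ = y₂ := by
  have hp : (x₁, x₂) ∈ pairs := by
    rw [pairs, List.mem_filter]
    exact ⟨List.pair_mem_product.2 ⟨h1, h2⟩, by simpa using ⟨n1, n2, n⟩⟩
  have hq : (y₁, y₂) ∈ pairs := by
    rw [pairs, List.mem_filter]
    exact ⟨List.pair_mem_product.2 ⟨h3, h4⟩, by simpa using ⟨n3, n4, m⟩⟩
  have hk : key (x₁, x₂) = key (y₁, y₂) := by
    have e : (x₁ - 1) * (x₂ - 1)⁻¹ = (y₁ - 1) * (y₂ - 1)⁻¹ := by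
      have a2 : x₂ - 1 ≠ 0 := sub_ne_zero.2 n2
      have a4 : y₂ - 1 ≠ 0 := sub_ne_zero.2 n4
      rw [← div_eq_mul_inv, ← div_eq_mul_inv, div_eq_div_iff a2 a4, h]
    have e1 : ∀ x y : T, key (x, y) = code ((x - 1) * (y - 1)⁻¹) := by
      intro x y
      rw [sub_one_eq, sub_one_eq]; rfl
    rw [e1, e1, e]
  have := List.inj_on_of_nodup_map key_nodup hp hq hk
  exact Prod.mk.inj this

theorem ratioF {F : Type} [Field F] [Fintype F] (hF : Fintype.card F = 343) (x₁ x₂ y₁ y₂ : F)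
    (h1 : x₁ ^ 9 = 1) (h2 : x₂ ^ 9 = 1) (h3 : y₁ ^ 9 = 1) (h4 : y₂ ^ 9 = 1) (n1 : x₁ ≠ 1)
    (n2 : x₂ ≠ 1) (n3 : y₁ ≠ 1) (n4 : y₂ ≠ 1) (n : x₁ ≠ x₂) (m : y₁ ≠ y₂)
    (h : (x₁ - 1) * (y₂ - 1) = (y₁ - 1) * (x₂ - 1)) : x₁ = y₁ ∧ x₂ = y₂ := by
  have e : F ≃+* T := FiniteField.ringEquivOfCardEq (by rw [hF, T.card_T])
  have hr : ∀ x : F, x ^ 9 = 1 → e x ∈ roots := by
    intro x hx
    apply mem_roots
    have : (e x) ^ 9 = 1 := by rw [← map_pow, hx, map_one]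
    rw [← this]; ring
  have h1' : ∀ x : F, x ≠ 1 → e x ≠ 1 := by
    intro x hx h
    exact hx (e.injective (by rw [h, map_one]))
  have := ratio (e x₁) (e x₂) (e y₁) (e y₂) (hr _ h1) (hr _ h2) (hr _ h3) (hr _ h4) (h1' _ n1)
    (h1' _ n2) (h1' _ n3) (h1' _ n4) (fun h => n (e.injective h)) (fun h => m (e.injective h))
    (by
      have := congrArg e h
      simpa only [map_mul, map_sub, map_one] using this)
  exact ⟨e.injective this.1, e.injective this.2⟩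

theorem block_subset {F : Type} [Field F] (H : Subgroup Fˣ) (x₃ y₃ : Fˣ) (hx : x₃ ∈ H)
    (hy : y₃ ∈ H) (u v : Fˣ) (a b : F) (h : (x₃ : F) * (u : F) = y₃ * v) (hab : a = b) (y : F)
    (hyy : ∃ g ∈ H, y = (g : F) * (u : F) + a) : ∃ g ∈ H, y = (g : F) * (v : F) + b := by
  obtain ⟨g, hg, rfl⟩ := hyy
  refine ⟨g * (x₃⁻¹ * y₃), H.mul_mem hg (H.mul_mem (H.inv_mem hx) hy), ?_⟩
  rw [hab, Units.val_mul, Units.val_mul, mul_assoc, mul_assoc, ← h, ← mul_assoc (x₃⁻¹ : Fˣ).val,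
    Units.inv_mul, one_mul]

theorem field_three {F : Type} [Field F] [Fintype F] (hF : Fintype.card F = 343)
    (S' H : Subgroup Fˣ) (hH : Nat.card H = 9) (B₁ B₂ : Set F) (hB₁ : B₁ ∈ blocks S' H)
    (hB₂ : B₂ ∈ blocks S' H) (p q r : F) (hpq : p ≠ q) (hpr : p ≠ r) (hqr : q ≠ r)
    (p1 : p ∈ B₁) (q1 : q ∈ B₁) (r1 : r ∈ B₁) (p2 : p ∈ B₂) (q2 : q ∈ B₂) (r2 : r ∈ B₂) :
    B₁ = B₂ := by
  obtain ⟨u, -, a, rfl⟩ := hB₁
  obtain ⟨v, -, b, rfl⟩ := hB₂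
  obtain ⟨x₁, hx1, ep⟩ := p1
  obtain ⟨x₂, hx2, eq⟩ := q1
  obtain ⟨x₃, hx3, er⟩ := r1
  obtain ⟨y₁, hy1, ep'⟩ := p2
  obtain ⟨y₂, hy2, eq'⟩ := q2
  obtain ⟨y₃, hy3, er'⟩ := r2
  have pow9 : ∀ g ∈ H, ∀ g' ∈ H, ((g : F) * ((g' : Fˣ)⁻¹ : Fˣ)) ^ 9 = 1 := by
    intro g hg g' hg'
    have h1 : g * g'⁻¹ ∈ H := H.mul_mem hg (H.inv_mem hg')
    have h2 : (⟨g * g'⁻¹, h1⟩ : H) ^ 9 = 1 := by
      rw [← hH]; exact pow_card_eq_one'
    have h3 : (g * g'⁻¹) ^ 9 = 1 := by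
      have := congrArg (Subtype.val) h2
      simpa using this
    rw [← Units.val_mul, ← Units.val_pow_eq_pow_val, h3, Units.val_one]
  have hu : (u : F) ≠ 0 := u.ne_zero
  have hv : (v : F) ≠ 0 := v.ne_zero
  have hx30 : (x₃ : F) ≠ 0 := x₃.ne_zero
  have hy30 : (y₃ : F) ≠ 0 := y₃.ne_zero
  have E1 : ((x₁ : F) - x₃) * u = (y₁ - y₃) * v := by linear_combination ep' - ep - er' + er
  have E2 : ((x₂ : F) - x₃) * u = (y₂ - y₃) * v := by linear_combination eq' - eq - er' + er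
  have E : ((x₁ : F) - x₃) * (y₂ - y₃) = (y₁ - y₃) * (x₂ - x₃) := by
    apply mul_right_cancel₀ (mul_ne_zero hu hv)
    linear_combination (y₂ - y₃ : F) * v * E1 - (y₁ - y₃ : F) * v * E2
  have X : ∀ g : Fˣ, (g : F) * ((x₃⁻¹ : Fˣ) : F) = g / x₃ := by
    intro g; rw [Units.val_inv_eq_inv_val, div_eq_mul_inv]
  have Y : ∀ g : Fˣ, (g : F) * ((y₃⁻¹ : Fˣ) : F) = g / y₃ := by
    intro g; rw [Units.val_inv_eq_inv_val, div_eq_mul_inv]
  have nx : ∀ g : Fˣ, (g : F) ≠ x₃ → (g : F) / x₃ ≠ 1 := fun g h h' => h ((div_eq_one_iff_eq hx30).1 h')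
  have ny : ∀ g : Fˣ, (g : F) ≠ y₃ → (g : F) / y₃ ≠ 1 := fun g h h' => h ((div_eq_one_iff_eq hy30).1 h')
  have K := ratioF hF ((x₁ : F) / x₃) (x₂ / x₃) (y₁ / y₃) (y₂ / y₃)
    (X x₁ ▸ pow9 _ hx1 _ hx3) (X x₂ ▸ pow9 _ hx2 _ hx3) (Y y₁ ▸ pow9 _ hy1 _ hy3)
    (Y y₂ ▸ pow9 _ hy2 _ hy3)
    (nx _ fun h => hpr (by rw [ep, er, h])) (nx _ fun h => hqr (by rw [eq, er, h]))
    (ny _ fun h => hpr (by rw [ep', er', h])) (ny _ fun h => hqr (by rw [eq', er', h]))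
    (fun h => hpq (by
      have : (x₁ : F) = x₂ := (div_left_inj' hx30).1 h
      rw [ep, eq, this]))
    (fun h => hpq (by
      have : (y₁ : F) = y₂ := (div_left_inj' hy30).1 h
      rw [ep', eq', this]))
    (by
      field_simp
      linear_combination E)
  have hne : (x₁ : F) - x₃ ≠ 0 := sub_ne_zero.2 fun h => hpr (by rw [ep, er, h])
  have E3 : (x₁ : F) * y₃ = y₁ * x₃ := by
    have := K.1
    rw [div_eq_div_iff hx30 hy30] at this
    exact this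
  have E4 : (x₃ : F) * u = y₃ * v := by
    apply mul_left_cancel₀ (mul_ne_zero hne hy30)
    have e5 : ((x₁ : F) - x₃) * y₃ = (y₁ - y₃) * x₃ := by linear_combination E3
    linear_combination (x₃ * y₃ : F) * E1 - (y₃ * v : F) * e5
  have hab : a = b := by linear_combination er' - er + E4 * 0 - E4
  ext y
  exact ⟨block_subset H x₃ y₃ hx3 hy3 u v a b E4 hab y,
    block_subset H y₃ x₃ hy3 hx3 v u b a E4.symm hab.symm y⟩

/-- **A nearfield design that is not a Galois field design.** There is a nearfield `N` of order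
`343` (`≡ 3 mod 4`) and a subgroup `G` of order `9` of the subgroup `S` of order
`171 = (343 - 1) / 2` of its multiplicative group such that the design `D(N, Φ, G)` is not
isomorphic to the design `D(343, 9)` of the field with `343` elements. -/
theorem result : ∃ (N : Type) (_ : Nearfield N) (_ : Fintype N) (S G : Subgroup Nˣ),
    Fintype.card N = 343 ∧ Nat.card S = (343 - 1) / 2 ∧ G ≤ S ∧ Nat.card G = 9 ∧
    ∀ (F : Type) (_ : Field F) (_ : Fintype F) (S' H : Subgroup Fˣ), Fintype.card F = 343 →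
      Nat.card S' = (343 - 1) / 2 → Nat.card H = 9 → ¬ Iso (blocks S G) (blocks S' H) := by
  refine ⟨NT, inferInstance, inferInstance, S, G, card_NT, card_S, G_le_S, card_G, ?_⟩
  intro F _ _ S' H hF _ hH ⟨e, he⟩
  obtain ⟨B₁, h1, B₂, h2, hne, p, q, r, hpq, hpr, hqr, p1, q1, r1, p2, q2, r2⟩ := three_common
  apply hne
  have m1 : (e : NT → F) '' B₁ ∈ blocks S' H := he ▸ ⟨B₁, h1, rfl⟩
  have m2 : (e : NT → F) '' B₂ ∈ blocks S' H := he ▸ ⟨B₂, h2, rfl⟩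
  have := field_three hF S' H hH _ _ m1 m2 (e p) (e q) (e r) (fun h => hpq (e.injective h))
    (fun h => hpr (e.injective h)) (fun h => hqr (e.injective h)) ⟨p, p1, rfl⟩ ⟨q, q1, rfl⟩
    ⟨r, r1, rfl⟩ ⟨p, p2, rfl⟩ ⟨q, q2, rfl⟩ ⟨r, r2, rfl⟩
  exact e.injective.image_injective this

end Pool.Agent.Results.MP_fd05bb_co.OrderThreeFortyThree
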